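import Pool.Agent.T6.H33.BC.Std

/-!
# The hard Lefschetz conjecture Q1 for varieties dominated by products of curves

Let `𝒱` be a class of smooth projective varieties over a field `k` (for example a number field) which is closed under products,
with Chow groups `C` (rational coefficients) and a Weil cohomology theory `W` (for example `ℓ`-adic cohomology), such that the
motive of each `X` in `𝒱` is a direct summand of a finite direct sum of motives `L^r` and `h(Z)(-r)`, where `Z` is a product of
pointed curves (`OfCurves`). For example `𝒱` is the class of all varieties which are dominated by products of pointed curves:
products of curves, abelian varieties, Fermat varieties. (Q1 is compatible with finite extensions of the number field; so the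
points of the curves are no restriction.) We prove, with no unproved hypothesis, that the following are equivalent.

1. The hard Lefschetz conjecture Q1 is true for all products `Z = E_1 × ⋯ × E_n` of pointed curves in `𝒱` and the polarisation
   `D = e_1 + ⋯ + e_n` given by the points.
2. `CH^m(h^1(E_1) ⊗ ⋯ ⊗ h^1(E_n))_hom = 0` for all products of pointed curves in `𝒱` and all `m` with `2 m ≠ n + 1`.
3. For all `X` and `Y` in `𝒱` and all `i`, a correspondence from `X` to `Y` which acts as zero on `H^(2i-1)(X)` acts as zero on
   `CH^i(X)_hom`.
4. There is a Bloch-Beilinson filtration on the Chow groups of the varieties in `𝒱` with `F^2 = 0`.
5. The hard Lefschetz conjecture Q1 is true for all `X` in `𝒱` and all divisor classes `D` for which the standard conjecture of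
   Lefschetz type is true (this is the case for all ample `D` if `X` is dominated by a product of curves).

So for this class Q1 for one polarisation on the products of curves implies Q1 for all varieties and all polarisations, and
Q1 is equivalent to the conjecture of Beilinson and Bloch that (over number fields) `F^2 = 0`, and to the vanishing of the groups of
multilinear cycles (2).

*Proof.* (1) implies (2): the multiplication by `D` is zero on the multilinear part and its image has no multilinear component, so
the injectivity (`2m < n + 1`) and the surjectivity (`2m > n + 1`) in Q1 give (2). (2) implies (3): the homologically trivial
classes in `CH^i(X)` have only components in motives of weight `2i - 1`, and a homologically trivial morphism between two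
multilinear motives, twisted, of the same weight is a homologically trivial class of codimension `m` on a multilinear motive of
weight `2m`, so zero. (3) implies (5) since the inverse of the Lefschetz operator on `H^(2i-1)(X)` is algebraic. (5) implies (1)
since the standard conjecture of Lefschetz type is true for products of pointed curves (this is also proved here, from the
commutation relation of the Lefschetz operator with its adjoint). The equivalence with (4) uses the description of
Bloch-Beilinson filtrations for such classes from the file `Pool/Agent/T6/H15/BB/Gen.lean`.

The definitions of `VarClass`, `ChowTheory`, `WeilTheory` are those of the starting files; `SumThrough`, `IsBB` and `midProj` are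
from `Pool/Agent/T6/H15/BB`; the others from `Pool/Agent/T6/H33/BC/Defs.lean`.
-/

set_option autoImplicit false

open Pool.Agent.H914 Pool.Agent.H914.VarClass.Obj Pool.Agent.R903
open Pool.Agent.T6.H15.BB Pool.Agent.T6.H33.BC

universe u v w

namespace Pool.Agent.Results.MP_e2c9e7_nt.ProductsOfCurves

/-- For a class of varieties whose motives are generated by products of pointed curves: Q1 for products of curves with the
polarisation given by the points, the vanishing of homologically trivial multilinear cycles outside the middle, the
fact that `H^(2i-1)` decides about `CH^i_hom`, the existence of a Bloch-Beilinson filtration with `F^2 = 0`, and Q1 for all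
varieties and all divisor classes with the standard conjecture of Lefschetz type are equivalent. -/
theorem result {k : Type u} [Field k] {𝒱 : VarClass k} {C : ChowTheory.{u, v} 𝒱} (W : WeilTheory.{u, v, w} C)
    (hC : C.Polarized) (hX : ∀ X : 𝒱.Obj, OfCurves C X) :
    [ ∀ (Z : 𝒱.Obj) (D : C.CH Z) (p : C.CH (Z.prod Z)), PointedProd C Z D p → HardLefschetz W Z D,
      MultilinearVanishing W,
      CohomologyDecides W,
      ShortFiltration W,
      ∀ (X : 𝒱.Obj) (D : C.CH X), StdLefschetz W X D → HardLefschetz W X D ].TFAE :=
  curves_tfae W hC hX

end Pool.Agent.Results.MP_e2c9e7_nt.ProductsOfCurves
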