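import Pool.Agent.T6.H33.BL.Curve

/-!
# Q1 and Q2 for products with pointed curves

Let `X` be a smooth projective variety over the number field `K` with an ample line bundle `L_X`, let `(C_s, e_s)`, `s = 1, …, k`,
be pointed smooth projective curves over `K` with `Δ_* e_s = e_s × e_s` (`e_s` a rational point), and let `a_s > 0` be rational
numbers. Let `X ⊗ h^1(C_S)` denote the direct summand of `X × ∏_(s in S) C_s` given by the projectors `Δ - e_s × C_s - C_s × e_s` on
the factors `C_s`; the cycles on it are the cycles on `X × ∏_(s in S) C_s` whose restrictions to the `e_s` and direct images along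
the `C_s` are zero. We prove (presupposing, like the question, that the Beilinson-Bloch height pairings are defined):

* *Q1 for `X × C_1 × ⋯ × C_k` with the polarisation `L_X + a_1 e_1 + ⋯ + a_k e_k` is equivalent to Q1 for all the summands
  `X ⊗ h^1(C_S)`, with the polarisation `L_X` alone; and the same is true for Q2.* In particular Q1 and Q2 for the product do not
  depend on the `a_s`.
* *If `X` is a point: Q1 and Q2 for `C_1 × ⋯ × C_k` with the polarisation `a_1 e_1 + ⋯ + a_k e_k` are both true if and only if for
  all `S` every nonzero homologically trivial cycle `z` of codimension `i` on `h^1(C_S)` satisfies `2i = |S| + 1` and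
  `(-1)^i (z, z) > 0`.* So for products of curves Q1 and Q2 together are the vanishing of these groups of cycles outside the middle
  codimension, and the definiteness of the height pairing of the middle-dimensional cycles with themselves; no power of the
  Lefschetz operator enters.

*The data.* `Pol` is the data of a polarised variety, or of a direct summand: the dimension `n`, the spaces `Ch^i(X)^0` with the
Lefschetz operator and the Beilinson-Bloch height pairing. `ProductWithCurve P E P'` says: `P'` is the product `X × C`, `E` the
summand `X ⊗ h^1(C)`; every homologically trivial cycle on `X × C` is uniquely `y = c₀ × C + c₁ + c₂ × e`, where `c₀` is the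
restriction of `y` to `X × e`, `c₂` its direct image on `X` and `c₁` a cycle on `X ⊗ h^1(C)`; the product with the class `e` maps
`c₀ × C` to `c₀ × e` and is zero on the two other terms, which gives the formulas for the Lefschetz operator; and the formula for
the height pairing is the projection formula. `IsCurveTower k F` says this for the products of `X` with the curves one by one:
`F j S` is `X × C_1 × ⋯ × C_j ⊗ h^1(C_S)`, `S` a set of indices in `{j + 1, …, k}`; the Lefschetz operator has degree one and is
self-adjoint, and there are no cycles of codimension greater than the dimension.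

*The proof.* For a primitive cycle `y = c₀ × C + c₁ + c₂ × e` of codimension `i` on `X × C`, `r = n + 2 - 2i`, we have
`L^(r+1) c₂ = -a (r + 1) L^r c₀`; so `w = c₂` is primitive on `X`, and `c₀ = p - L w / (a (r + 1))` with `p` primitive. The
height pairing of `y` with `L^r y` is
`a r (p, L^(r-1) p) - (r + 2)/((r + 1)^2 a) (w, L^(r+1) w) + (c₁, L^r c₁)`, and the degrees of `p`, `w` and `c₁` are `i`, `i - 1` and
`i`, so the three terms have the same sign. The statement on Q1 is proved in the same way; then induction on `k`.
-/

set_option autoImplicit false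

namespace Pool.Agent.Results.MP_e2c9e7_nt.ProductsWithCurves

open Pool.Agent.T6.H33.BL

/-- Let `F j S` be the direct summand `X × C_1 × ⋯ × C_j ⊗ h^1(C_S)`. Q1 for `X × C_1 × ⋯ × C_k` is equivalent to Q1 for all
`X ⊗ h^1(C_S)`, and Q2 for `X × C_1 × ⋯ × C_k` is equivalent to Q2 for all `X ⊗ h^1(C_S)`. If the Lefschetz operator of `X` is zero on
these summands (`X` a point), then Q1 and Q2 for `C_1 × ⋯ × C_k` are equivalent to: for all `S` and `i` every nonzero cycle `x` in
`Ch^i(h^1(C_S))^0` satisfies `2i = n + 1`, where `n = |S|` is the dimension, and `(-1)^i (x, x) > 0`. -/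
theorem result (k : ℕ) (F : ℕ → Finset ℕ → Pol) (h : IsCurveTower k F) :
    ((F k ∅).Lefschetz ↔ ∀ S, (∀ s ∈ S, 0 < s ∧ s ≤ k) → (F 0 S).Lefschetz) ∧
    ((F k ∅).HodgeIndex ↔ ∀ S, (∀ s ∈ S, 0 < s ∧ s ≤ k) → (F 0 S).HodgeIndex) ∧
    ((∀ S (x : (F 0 S).M), (∀ s ∈ S, 0 < s ∧ s ≤ k) → (F 0 S).L x = 0) →
      ((F k ∅).Lefschetz ∧ (F k ∅).HodgeIndex ↔ ∀ S, (∀ s ∈ S, 0 < s ∧ s ≤ k) → ∀ i (x : (F 0 S).M), x ∈ (F 0 S).G i → x ≠ 0 →
        2 * i = (F 0 S).n + 1 ∧ 0 < (-1) ^ i * (F 0 S).ht x x)) :=
  ⟨h.lefschetz_iff, h.hodgeIndex_iff, h.curves_iff⟩

end Pool.Agent.Results.MP_e2c9e7_nt.ProductsWithCurves
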