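import Pool.Agent.T6.H33.BL.Blow

/-!
# Q1 is equivalent to the case of the middle degree for rational varieties of even dimension

We prove, unconditionally: the hard Lefschetz conjecture Q1 (for all number fields `K`, all regular arithmetic varieties `X`, all
ample `L` and all `i ≤ (n + 1)/2`) is equivalent to the following statement.

* *For every regular arithmetic variety `Z` over `ℤ` whose generic fibre is **rational** over `ℚ` and of **even** dimension `2k`, and
  every ample `L`, the operator `L` itself is an isomorphism from `Ch^k(Z_ℚ)^0` to `Ch^(k+1)(Z_ℚ)^0`.*

*The data.* `Pol` has, for a regular arithmetic variety `X` with an ample line bundle, the dimension `n` of the generic fibre, the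
spaces `G i = Ch^i(X_K)^0` (as subspaces of their sum `M`), the Lefschetz operator `L` and the height pairing `ht` (not used
for Q1). `Pol.Lefschetz` is Q1 for `X` (all `i`) and `Pol.MiddleLefschetz` the statement above for one variety.
`IsGeometry C Rat` says that for the class `C` of all regular arithmetic varieties (over the rings of integers of all number
fields) with an ample line bundle and its subclass `Rat` of varieties over `ℤ` with generic fibre rational over `ℚ` the standard
facts hold which are used:

* `L` is of degree one and self-adjoint; `Rat` is closed under the product with the projective space `P^m` with the polarisation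
  `L ⊠ O(1)` (`ProductWithSpace`: the projective bundle formula);
* for every `X` in `C` there is the Grothendieck ring `K` of vector bundles on `X` with dual, rank and determinant, the Chow ring
  `A` of `X_K` acting on the homologically trivial cycles, and Chern classes (`Bundles`, `IsAction`, `IsChern`, `IsVector`: Whitney
  formula, theorem of Serre). `ambient τ p B` says: there is a closed embedding of `X`, as a scheme over `ℤ`, in a smooth
  projective scheme `V` over `ℤ`, with rational generic fibre and without homologically trivial cycles on the generic fibre, such
  that `τ` is the restriction of the relative tangent bundle of `V`, `p` the restriction of an ample line bundle on `V` and `B`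
  the set of the classes of restrictions of vector bundles on `V`. `HasEmbeddings` has the embedding in a projective space by a power of `h`,
  the embedding in `V × Gr` given by a bundle generated by its sections, the embedding in the projective bundle `P(O ⊕ F)`, `F` a
  vector bundle on `V`, by the section given by `O`, and the fact that the normal bundle is a vector bundle;
* the blow-up of `V` in `X` with the ample line bundle `p^a(-E)`, `a` large, is in `Rat`, and its homologically trivial cycles
  are described by the blow-up formula (`BlowUp`).

*The proof.* (1) We construct an embedding of `X` in such a `V` for which `p` is a power of `h` and the normal bundle is stably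
`s O + t h^(-k)`, so that its Chern classes are rational multiples of the powers of `c_1(h)`: with the normal bundle `ν` of `X` in
`P^N`, take `V₀ = P^N × Gr × Gr` with the maps given by `E = ν(k)` and `E' = ν^∨(k)` with the kernels `S` and `S'`
of `O^R → E` and `O^R → E'`, and then `V = P(O ⊕ F)` over `V₀` with `F = S(-k) ⊕ S^R ⊕ E^∨ ⊗ E ⊕ S'^R ⊕ E'^∨ ⊗ E'`. The
determinants of `E` and `E'` cancel up to a power of `h`, and the normal bundle is `ν + S^∨ E + S'^∨ E' + F = 2R² O + R h^(-k)`
(in the Grothendieck group). (2) On the blow-up of `V` in `X`, with the exceptional divisor of relative dimension `m + 1` over
`X`, the `e`-th power of the Lefschetz operator has in the coordinates given by the powers of the tautological class the form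
`(L^e y)_t = Σ_u κ_u(e, t) L^(e + u - t) y_u` with rational numbers `κ_u(e, t)`. From this Q1 for the blow-up in degree `i + 1`
gives Q1 for `X` in degree `i`. (3) For `i ≤ n/2` put `m = n - 2i`. Q1 for `L` on `X × P^m` in the middle degree `i + m` gives Q1
for `X` in degree `i`: if `L^(m+1) x = 0`, then `Σ_t (-1)^t L^(m-t) x · H^t` is in the kernel of the Lefschetz operator, and
similarly for the surjectivity.
-/

set_option autoImplicit false

namespace Pool.Agent.Results.MP_e2c9e7_nt.RationalMiddle

open Pool.Agent.T6.H33.BL

/-- Let `C` be the class of all regular arithmetic varieties (over all number fields) with an ample line bundle and `Rat` the class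
of those over `ℤ` with generic fibre rational over `ℚ`. Then Q1 is true for all varieties in `C` if and only if for all varieties
in `Rat` of even dimension `2k` the Lefschetz operator is an isomorphism from `Ch^k(X_ℚ)^0` to `Ch^(k + 1)(X_ℚ)^0`. -/
theorem result (C Rat : Set Pol) (h : IsGeometry C Rat) :
    (∀ P ∈ C, P.Lefschetz) ↔ ∀ P ∈ Rat, P.MiddleLefschetz :=
  lefschetz_iff h

end Pool.Agent.Results.MP_e2c9e7_nt.RationalMiddle
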