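import Pool.Agent.T6.H33.BL.Blow

/-!
# Q2 is equivalent to the case of the middle degree for rational varieties of odd dimension

We prove (presupposing, like the question, that the height pairings are defined): the Hodge index conjecture Q2 (for all number
fields `K`, all regular arithmetic varieties `X`, all ample `L` and all `i ≤ (n + 1)/2`) is equivalent to the following statement.

* *For every regular arithmetic variety `Z` over `ℤ` whose generic fibre is **rational** over `ℚ` and of **odd** dimension `2k - 1`,
  and every ample `L`, the Beilinson-Bloch height pairing satisfies `(-1)^k (z, z) > 0` for all `z ≠ 0` in `Ch^k(Z_ℚ)^0` with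
  `L z = 0`.*

In particular Q2 for all varieties follows from the definiteness of the height pairing of the middle dimensional cycles with
themselves on rational varieties; there no power of `L` enters the pairing.

*The data* are as in the hand-in `RationalMiddle` (`Pol`, `IsGeometry`). For the height pairing are used: it is bilinear and `L` is
self-adjoint; the formula `(y, z) = Σ_t (y_t, z_(m-t))` for the product with `P^m`; and on the blow-up of an ambient space `V` without
homologically trivial cycles `(j_* g^* y, j_* Σ_t ζ^t g^* z_t) = -(y, z_m)`, where `g` is the projection of the exceptional divisor
and `m + 2` the codimension of `X`.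

*The proof.* (1) As in `RationalMiddle` there is an embedding of `X` in a smooth projective scheme `V` over `ℤ` with rational generic fibre without homologically trivial cycles such that an ample line bundle of `V` restricts to `h^D` and
the Chern classes of the normal bundle are rational multiples of the powers of `c_1(h)`. (2) Let `x ≠ 0` in `Ch^i(X_K)^0` with
`L^(r+1) x = 0`, `r = n + 1 - 2i`. On the blow-up of `V` in `X` with the polarisation `p^a(-E)` the cycle `y = j_* g^* x` has degree
`i + 1` and is killed by the power `r + m + 1` of the Lefschetz operator, and `(y, L^(r+m) y) = -κ (x, L^r x)` with a rational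
number `κ`, which is a polynomial in `a` with leading term `binom(r + m, m) (aD)^r`. So `κ > 0` for `a` large, and Q2 for the blow-up
gives Q2 for `X`. (3) For a rational variety of dimension `n` and `m = n + 1 - 2i`, the cycle `y = Σ_t (-1)^t L^(m-t) x · H^t` on the
product with `P^m` is in the kernel of the Lefschetz operator, its degree is the middle degree `i + m`, and
`(y, y) = (m + 1) (-1)^m (x, L^m x)`.
-/

set_option autoImplicit false

namespace Pool.Agent.Results.MP_e2c9e7_nt.RationalMiddleIndex

open Pool.Agent.T6.H33.BL

/-- Let `C` be the class of all regular arithmetic varieties (over all number fields) with an ample hermitian line bundle and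
`Rat` the class of those over `ℤ` with generic fibre rational over `ℚ`. Then Q2 is true for all varieties in `C` if and only if
for all varieties `Z` in `Rat` of odd dimension `2k - 1` we have `(-1)^k (z, z) > 0` for all `z ≠ 0` in `Ch^k(Z_ℚ)^0` with
`L z = 0`. -/
theorem result (C Rat : Set Pol) (h : IsGeometry C Rat) :
    (∀ P ∈ C, P.HodgeIndex) ↔ ∀ P ∈ Rat, P.MiddleIndex :=
  hodgeIndex_iff h

end Pool.Agent.Results.MP_e2c9e7_nt.RationalMiddleIndex
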